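import Pool.Agent.H53.HR.Targets

/-! Module FM. -/

set_option linter.unusedSectionVars false

namespace Pool.Agent.H49.HR

open Finset
open Pool.Agent.H53.HR
open Pool.Agent.H53.CZD (lc LE VMClosed R0)

section aux
variable {V : Type} [DecidableEq V]

theorem nb_mem_span (G : SimpleGraph V) (Q : Finset V) (v : V) :
    nb G Q v ∈ Submodule.span (ZMod 2)
      ((fun q => (Pi.single q 1 : V → ZMod 2)) '' (Q : Set V)) := by
  have h : nb G Q v = ∑ q ∈ Q, (nb G Q v q) • (Pi.single q 1 : V → ZMod 2) := by
    funext i
    rw [Finset.sum_apply]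
    simp only [Pi.smul_apply, smul_eq_mul, Pi.single_apply, mul_ite, mul_one, mul_zero]
    by_cases hi : i ∈ Q
    · rw [Finset.sum_ite_eq Q i (fun q => nb G Q v q), if_pos hi]
    · rw [Finset.sum_ite_eq Q i (fun q => nb G Q v q), if_neg hi]
      simp [nb, hi]
  rw [h]
  refine Submodule.sum_mem _ fun q hq => Submodule.smul_mem _ _ ?_
  exact Submodule.subset_span ⟨q, hq, rfl⟩

theorem single_indep (Q : Finset V) :
    LinearIndependent (ZMod 2) (fun q : (Q : Set V) => (Pi.single (q : V) 1 : V → ZMod 2)) := by
  rw [Fintype.linearIndependent_iff]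
  intro g hg q
  have h := congrFun hg (q : V)
  rw [Finset.sum_apply] at h
  simp only [Pi.smul_apply, smul_eq_mul, Pi.single_apply, mul_ite, mul_one, mul_zero,
    Pi.zero_apply] at h
  rw [Finset.sum_eq_single q] at h
  · simpa using h
  · intro b _ hb
    rw [if_neg]
    intro hh
    exact hb (Subtype.ext hh.symm)
  · intro hh
    exact absurd (Finset.mem_univ _) hh

theorem finrank_single (Q : Finset V) :
    Module.finrank (ZMod 2) (Submodule.span (ZMod 2)
      ((fun q => (Pi.single q 1 : V → ZMod 2)) '' (Q : Set V))) = #Q := by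
  have h := finrank_span_eq_card (single_indep Q)
  have e : (Set.range fun q : (Q : Set V) => (Pi.single (q : V) 1 : V → ZMod 2)) =
      (fun q => (Pi.single q 1 : V → ZMod 2)) '' (Q : Set V) :=
    (Set.image_eq_range (fun q => (Pi.single q 1 : V → ZMod 2)) (Q : Set V)).symm
  rw [e] at h
  rw [h]
  simp

theorem finrank_W {f : V → (V → ZMod 2)} {H : Finset V}
    (h : LinearIndepOn (ZMod 2) f (H : Set V)) :
    Module.finrank (ZMod 2) (Submodule.span (ZMod 2) (f '' (H : Set V))) = #H := by
  have h1 := finrank_span_eq_card h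
  have e : (Set.range fun x : (H : Set V) => f x) = f '' (H : Set V) :=
    (Set.image_eq_range _ _).symm
  rw [e] at h1
  rw [h1]
  simp

theorem card_le (G : SimpleGraph V) (Q H : Finset V)
    (h : LinearIndepOn (ZMod 2) (nb G Q) (H : Set V)) : #H ≤ #Q := by
  rw [← finrank_W h, ← finrank_single Q]
  have : Module.Finite (ZMod 2) (Submodule.span (ZMod 2)
      ((fun q => (Pi.single q 1 : V → ZMod 2)) '' (Q : Set V))) :=
    FiniteDimensional.span_of_finite _ ((Finset.finite_toSet Q).image _)
  refine Submodule.finrank_mono ?_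
  rw [Submodule.span_le]
  rintro _ ⟨v, _, rfl⟩
  exact nb_mem_span G Q v

theorem exists_q (G : SimpleGraph V) (Q H : Finset V)
    (h : LinearIndepOn (ZMod 2) (nb G Q) (H : Set V)) (hc : #H < #Q) :
    ∃ q ∈ Q, (Pi.single q 1 : V → ZMod 2) ∉
      Submodule.span (ZMod 2) (nb G Q '' (H : Set V)) := by
  by_contra hcon
  push Not at hcon
  have : Module.Finite (ZMod 2) (Submodule.span (ZMod 2) (nb G Q '' (H : Set V))) :=
    FiniteDimensional.span_of_finite _ ((Finset.finite_toSet H).image _)
  have h1 : Submodule.span (ZMod 2)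
      ((fun q => (Pi.single q 1 : V → ZMod 2)) '' (Q : Set V)) ≤
      Submodule.span (ZMod 2) (nb G Q '' (H : Set V)) := by
    rw [Submodule.span_le]
    rintro _ ⟨q, hq, rfl⟩
    exact hcon q hq
  have h2 := Submodule.finrank_mono h1
  rw [finrank_single, finrank_W h] at h2
  omega

/-- The transvection of the neighbourhood vectors. -/
def phi (q' : V) (u : V → ZMod 2) : (V → ZMod 2) →ₗ[ZMod 2] (V → ZMod 2) where
  toFun t := t + (t q') • u
  map_add' s t := by
    funext i
    simp only [Pi.add_apply, Pi.smul_apply, smul_eq_mul]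
    ring
  map_smul' c t := by
    funext i
    simp only [Pi.add_apply, Pi.smul_apply, smul_eq_mul, RingHom.id_apply]
    ring

theorem phi_phi (q' : V) (u : V → ZMod 2) (hu : u q' = 0) (t : V → ZMod 2) :
    phi q' u (phi q' u t) = t := by
  funext i
  show (t + (t q') • u) i + ((t + (t q') • u) q') • u i = t i
  simp only [Pi.add_apply, Pi.smul_apply, smul_eq_mul, hu, mul_zero, add_zero]
  rw [add_assoc, CharTwo.add_self_eq_zero, add_zero]

theorem phi_inj (q' : V) (u : V → ZMod 2) (hu : u q' = 0) :
    Function.Injective (phi q' u) := by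
  intro s t hst
  rw [← phi_phi q' u hu s, hst, phi_phi q' u hu t]

theorem nb_self (G : SimpleGraph V) (Q : Finset V) (v : V) : nb G Q v v = 0 := by
  simp [nb]

theorem nb_lc_self (G : SimpleGraph V) (Q : Finset V) (q q' : V) (hq : q ∈ Q)
    (hadj : G.Adj q' q) :
    nb (lc G q') Q q + Pi.single q 1 = nb G Q q + nb G Q q' := by
  funext i
  simp only [Pi.add_apply, Pi.single_apply]
  by_cases hi : i = q
  · subst hi
    simp [nb, hq, hadj]
  · rw [if_neg hi, add_zero]
    by_cases hiQ : i ∈ Q
    · have hne : q ≠ i := fun h => hi h.symm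
      by_cases h1 : G.Adj q i <;> by_cases h2 : G.Adj q' i <;>
        simp [nb, hiQ, lc, hadj, hne, h1, h2, CharTwo.add_self_eq_zero]
    · simp [nb, hiQ]

end aux

theorem fm (hLQA : LQA) (hLCC : LCC) (hLTR : LTR) (hSTP : STP) : FM := by
  intro V _
  have main : ∀ (n : ℕ) (G : SimpleGraph V) (Q H : Finset V), #Q = n →
      Conn G Q → Disjoint Q H → H.Nonempty → LinearIndepOn (ZMod 2) (nb G Q) (H : Set V) →
      ∃ (G' : SimpleGraph V) (Q' : Finset V), Q' ⊆ Q ∧ LQ Q G G' ∧ Conn G' Q' ∧ #Q' = #H ∧
        LinearIndepOn (ZMod 2) (nb G' Q') (H : Set V) := by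
    intro n
    induction n with
    | zero =>
      intro G Q H hn hconn
      have := Finset.card_pos.2 hconn.1
      omega
    | succ n ih =>
      intro G Q H hn hconn hdis hne hli
      have hle := card_le G Q H hli
      have hHpos := Finset.card_pos.2 hne
      rcases Nat.lt_or_ge #H #Q with hlt | hge
      swap
      · exact ⟨G, Q, Finset.Subset.refl _, LQ.refl, hconn, le_antisymm hge hle, hli⟩
      have hQ2 : 2 ≤ #Q := by omega
      obtain ⟨q, hq, hqW⟩ := exists_q G Q H hli hlt
      have hcard : #(Q.erase q) = n := by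
        rw [Finset.card_erase_of_mem hq]
        omega
      have hdis' : Disjoint (Q.erase q) H :=
        Finset.disjoint_of_subset_left (Finset.erase_subset _ _) hdis
      -- composition
      have comp : ∀ G1 : SimpleGraph V, LQ Q G G1 → Conn G1 (Q.erase q) →
          LinearIndepOn (ZMod 2) (nb G1 (Q.erase q)) (H : Set V) →
          ∃ (G' : SimpleGraph V) (Q' : Finset V), Q' ⊆ Q ∧ LQ Q G G' ∧ Conn G' Q' ∧
            #Q' = #H ∧ LinearIndepOn (ZMod 2) (nb G' Q') (H : Set V) := by
        intro G1 hL hc hl
        obtain ⟨G', Q', h1, h2, h3, h4, h5⟩ := ih G1 (Q.erase q) H hcard hc hdis' hne hl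
        refine ⟨G', Q', h1.trans (Finset.erase_subset _ _), ?_, h3, h4, h5⟩
        have h6 := (hLQA V _ _ _ h2).2.1 Q (Finset.erase_subset _ _)
        exact (hLQA V Q G G1 hL).2.2.1 G' h6
      by_cases hA : Conn G (Q.erase q)
      · exact comp G LQ.refl hA ((hSTP V G Q H q hconn hdis hli hq hQ2).1 hA hqW)
      by_cases hB1 : nb G Q q + Pi.single q 1 ∈
          Submodule.span (ZMod 2) (nb G Q '' (H : Set V))
      swap
      · have h := (hSTP V G Q H q hconn hdis hli hq hQ2).2 hA hB1
        exact comp (lc G q) (LQ.step q hq LQ.refl) h.1 h.2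
      have hN : nb G Q q ∉ Submodule.span (ZMod 2) (nb G Q '' (H : Set V)) := by
        intro hh
        apply hqW
        have := Submodule.sub_mem _ hB1 hh
        rwa [add_sub_cancel_left] at this
      -- a neighbour
      obtain ⟨x, hx, q', hq', hq'S, hadj⟩ := hconn.2 {q} (by simpa using hq)
        (Finset.singleton_nonempty q) (by
          intro hh
          rw [← hh] at hQ2
          simp at hQ2)
      rw [Finset.mem_singleton] at hx
      subst hx
      have hne' : q' ≠ x := by simpa using hq'S
      have hcG1 : Conn (lc G q') Q := hLCC V G Q q' hconn hq'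
      set u := nb G Q q' with hu
      have hu0 : u q' = 0 := nb_self G Q q'
      have hnb1 : ∀ h ∈ H, nb (lc G q') Q h = phi q' u (nb G Q h) := by
        intro h hh
        have hhQ : h ∉ Q := fun h1 => (Finset.disjoint_left.1 hdis h1 hh)
        exact (hLTR V G Q q' h hhQ hq').1
      have hli1 : LinearIndepOn (ZMod 2) (nb (lc G q') Q) (H : Set V) := by
        have h1 : LinearIndependent (ZMod 2)
            ((phi q' u) ∘ fun h : (H : Set V) => nb G Q h) :=
          LinearIndependent.map' hli _ (LinearMap.ker_eq_bot.2 (phi_inj q' u hu0))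
        have h2 : (fun h : (H : Set V) => nb (lc G q') Q h) =
            (phi q' u) ∘ fun h : (H : Set V) => nb G Q h := by
          funext h
          exact hnb1 h h.2
        show LinearIndependent (ZMod 2) (fun h : (H : Set V) => nb (lc G q') Q h)
        rw [h2]
        exact h1
      have hW1 : Submodule.span (ZMod 2) (nb (lc G q') Q '' (H : Set V)) =
          (Submodule.span (ZMod 2) (nb G Q '' (H : Set V))).map (phi q' u) := by
        rw [Submodule.map_span, Set.image_image]
        congr 1
        exact Set.image_congr fun h hh => hnb1 h hh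
      have hNq' : nb G Q x q' = 1 := by
        simp [nb, hq', hadj]
      have hphiN : nb (lc G q') Q x + Pi.single x 1 = phi q' u (nb G Q x) := by
        rw [nb_lc_self G Q x q' hq hadj.symm]
        show _ = nb G Q x + (nb G Q x q') • u
        rw [hNq', one_smul]
      have hnot : nb (lc G q') Q x + Pi.single x 1 ∉
          Submodule.span (ZMod 2) (nb (lc G q') Q '' (H : Set V)) := by
        rw [hphiN, hW1]
        rintro ⟨y, hy, hyx⟩
        have := phi_inj q' u hu0 hyx
        subst this
        exact hN hy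
      have hncon : ¬ Conn (lc G q') (Q.erase x) := by
        intro hcc
        have h1 := hLCC V (lc G q') (Q.erase x) q' hcc (Finset.mem_erase.2 ⟨hne', hq'⟩)
        obtain ⟨h0, hh0⟩ := hne
        have hhQ : h0 ∉ Q := fun h1 => (Finset.disjoint_left.1 hdis h1 hh0)
        rw [(hLTR V G Q q' h0 hhQ hq').2.2] at h1
        exact hA h1
      have h := (hSTP V (lc G q') Q H x hcG1 hdis hli1 hq hQ2).2 hncon hnot
      exact comp (lc (lc G q') x) (LQ.step x hq (LQ.step q' hq' LQ.refl)) h.1 h.2
  intro G Q H
  exact main _ G Q H rfl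

end Pool.Agent.H49.HR
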