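import Pool.Agent.H49.HR.RAM

/-! Module PIN. -/

namespace Pool.Agent.H49.HR

open Finset
open Pool.Agent.H53.HR

theorem rma1 (C : Type*) [Fintype C] [Nonempty C] (n : ℕ) :
    ∃ N : ℕ, ∀ f : Fin N → Fin N → C, ∃ (g : Fin n → Fin N) (κ : C),
      StrictMono g ∧ ∀ a b : Fin n, a < b → f (g a) (g b) = κ := by
  refine ⟨(Fintype.card C + 1) ^ (Fintype.card C * n), fun f => ?_⟩
  exact ram_general f n univ (by simp)

theorem clique_contra {V : Type} {G : SimpleGraph V} {B : Finset V} {w : ℕ}
    (h : CliqueLE G B w) (q : Fin (w + 1) → V) (hB : ∀ a, q a ∈ B)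
    (hadj : ∀ a b, a < b → G.Adj (q a) (q b)) : False := by
  classical
  have hinj : Function.Injective q := by
    intro a b hab
    rcases lt_trichotomy a b with h1 | h1 | h1
    · exact absurd hab (hadj a b h1).ne
    · exact h1
    · exact absurd hab.symm (hadj b a h1).ne
  have h1 := h (univ.image q) (by
    intro x hx
    obtain ⟨a, -, rfl⟩ := Finset.mem_image.1 hx
    exact hB a) (by
    intro x hx y hy hxy
    obtain ⟨a, -, rfl⟩ := Finset.mem_image.1 hx
    obtain ⟨b, -, rfl⟩ := Finset.mem_image.1 hy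
    rcases lt_trichotomy a b with h1 | h1 | h1
    · exact hadj a b h1
    · exact absurd (by rw [h1]) hxy
    · exact (hadj b a h1).symm)
  rw [Finset.card_image_of_injective _ hinj, Finset.card_univ, Fintype.card_fin] at h1
  omega

theorem pin (_ : RMA) : PIN := by
  classical
  intro w k m
  obtain ⟨K, hK⟩ := rma1 (Prop × Prop × Prop) (max k (w + 1))
  obtain ⟨M, hM⟩ := rma1 (Fin K → Fin K → Prop × Prop) (max m (w + 1) + 1)
  refine ⟨K, M, ?_⟩
  intro V _ G p B hpB hcl _
  obtain ⟨e1, κ2, he1, hκ2⟩ := hM fun j j' => fun l l' =>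
    (G.Adj (p l j) (p l' j'), G.Adj (p l j) (p l' j))
  obtain ⟨g1, κ1, hg1, hκ1⟩ := hK fun l l' =>
    ((κ2 l l').1, (κ2 l' l).1, (κ2 l l').2)
  have hc : ∀ (l l' : Fin K) (j j' : Fin (max m (w + 1))), j < j' →
      (G.Adj (p l (e1 j.castSucc)) (p l' (e1 j'.castSucc)) ↔ (κ2 l l').1) := by
    intro l l' j j' hjj
    have h := hκ2 j.castSucc j'.castSucc (by simpa using hjj)
    have h1 := congrFun (congrFun h l) l'
    have h2 := congrArg Prod.fst h1
    exact iff_of_eq h2
  have hd : ∀ (l l' : Fin K) (j : Fin (max m (w + 1))),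
      (G.Adj (p l (e1 j.castSucc)) (p l' (e1 j.castSucc)) ↔ (κ2 l l').2) := by
    intro l l' j
    have h := hκ2 j.castSucc (Fin.last _) (Fin.castSucc_lt_last j)
    have h1 := congrFun (congrFun h l) l'
    have h2 := congrArg Prod.snd h1
    exact iff_of_eq h2
  have hw : w + 1 ≤ max m (w + 1) := le_max_right _ _
  have hw' : w + 1 ≤ max k (w + 1) := le_max_right _ _
  have k1 : ∀ l : Fin K, ¬ (κ2 l l).1 := by
    intro l hl
    refine clique_contra hcl (fun a => p l (e1 (Fin.castLE hw a).castSucc))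
      (fun a => hpB _ _) ?_
    intro a b hab
    exact (hc l l _ _ (by simpa using hab)).2 hl
  have k2 : ∀ a a' : Fin (max k (w + 1)), a < a' → ¬ (κ2 (g1 a) (g1 a')).1 := by
    intro a a' haa hl
    have hκ : κ1.1 := by
      have := congrArg Prod.fst (hκ1 a a' haa)
      exact this ▸ hl
    refine clique_contra hcl (fun a => p (g1 (Fin.castLE hw' a)) (e1 (Fin.castLE hw a).castSucc))
      (fun a => hpB _ _) ?_
    intro a b hab
    refine (hc _ _ _ _ (by simpa using hab)).2 ?_
    have := congrArg Prod.fst (hκ1 (Fin.castLE hw' a) (Fin.castLE hw' b) (by simpa using hab))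
    exact this.symm ▸ hκ
  have k3 : ∀ a a' : Fin (max k (w + 1)), a < a' → ¬ (κ2 (g1 a') (g1 a)).1 := by
    intro a a' haa hl
    have hκ : κ1.2.1 := by
      have := congrArg (fun x => x.2.1) (hκ1 a a' haa)
      exact this ▸ hl
    refine clique_contra hcl
      (fun a => p (g1 (Fin.castLE hw' (Fin.rev a))) (e1 (Fin.castLE hw a).castSucc))
      (fun a => hpB _ _) ?_
    intro a b hab
    refine (hc _ _ _ _ (by simpa using hab)).2 ?_
    have hlt : (Fin.castLE hw' (Fin.rev b)) < (Fin.castLE hw' (Fin.rev a)) := by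
      have : Fin.rev b < Fin.rev a := Fin.rev_lt_rev.2 hab
      simpa using this
    have := congrArg (fun x => x.2.1) (hκ1 _ _ hlt)
    exact this.symm ▸ hκ
  have k4 : ∀ a a' : Fin (max k (w + 1)), a < a' → ¬ (κ2 (g1 a) (g1 a')).2 := by
    intro a a' haa hl
    have hκ : κ1.2.2 := by
      have := congrArg (fun x => x.2.2) (hκ1 a a' haa)
      exact this ▸ hl
    refine clique_contra hcl
      (fun a => p (g1 (Fin.castLE hw' a)) (e1 (Fin.castLE hw (0 : Fin (w + 1))).castSucc))
      (fun a => hpB _ _) ?_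
    intro a b hab
    refine (hd _ _ _).2 ?_
    have := congrArg (fun x => x.2.2) (hκ1 (Fin.castLE hw' a) (Fin.castLE hw' b)
      (by simpa using hab))
    exact this.symm ▸ hκ
  have key : ∀ (a a' : Fin (max k (w + 1))) (b b' : Fin (max m (w + 1))),
      ¬ G.Adj (p (g1 a) (e1 b.castSucc)) (p (g1 a') (e1 b'.castSucc)) := by
    have key1 : ∀ (a a' : Fin (max k (w + 1))) (b b' : Fin (max m (w + 1))), b < b' →
        ¬ G.Adj (p (g1 a) (e1 b.castSucc)) (p (g1 a') (e1 b'.castSucc)) := by
      intro a a' b b' hb hadj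
      have h := (hc _ _ _ _ hb).1 hadj
      rcases lt_trichotomy a a' with h1 | h1 | h1
      · exact k2 a a' h1 h
      · subst h1
        exact k1 _ h
      · exact k3 a' a h1 h
    intro a a' b b' hadj
    rcases lt_trichotomy b b' with h1 | h1 | h1
    · exact key1 a a' b b' h1 hadj
    · subst h1
      rcases lt_trichotomy a a' with h2 | h2 | h2
      · exact k4 a a' h2 ((hd _ _ _).1 hadj)
      · subst h2
        exact hadj.ne rfl
      · exact k4 a' a h2 ((hd _ _ _).1 hadj.symm)
    · exact key1 a' a b' b h1 hadj.symm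
  refine ⟨fun a => g1 (Fin.castLE (le_max_left _ _) a),
    fun b => e1 (Fin.castLE (le_max_left _ _) b).castSucc, ?_, ?_, ?_⟩
  · intro a b hab
    exact hg1 (by simpa using hab)
  · intro a b hab
    exact he1 (by simpa using hab)
  · intro a a' b b'
    exact key _ _ _ _

end Pool.Agent.H49.HR
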