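import Pool.Agent.H53.HR.Targets

/-! Ramsey's theorem for pairs (modules RAM, RMA). -/

namespace Pool.Agent.H49.HR

open Finset
open Pool.Agent.H53.HR

theorem ram_chain {α C : Type*} [LinearOrder α] [Fintype C] [DecidableEq C] [Nonempty C]
    (f : α → α → C) : ∀ (L : ℕ) (S : Finset α), (Fintype.card C + 1) ^ L ≤ #S →
    ∃ (a : Fin L → α) (col : Fin L → C), StrictMono a ∧ (∀ i, a i ∈ S) ∧
      ∀ i j, i < j → f (a i) (a j) = col i := by
  intro L
  induction L with
  | zero =>
    intro S _
    exact ⟨Fin.elim0, Fin.elim0, fun i => i.elim0, fun i => i.elim0, fun i => i.elim0⟩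
  | succ L ih =>
    intro S hS
    have hpos : 0 < #S := lt_of_lt_of_le (by positivity) hS
    have hne : S.Nonempty := Finset.card_pos.1 hpos
    set x := S.min' hne with hx
    have hxS : x ∈ S := S.min'_mem hne
    have hcard : #(S.erase x) = #S - 1 := Finset.card_erase_of_mem hxS
    have hC : 0 < Fintype.card C := Fintype.card_pos
    have hP : 1 ≤ (Fintype.card C + 1) ^ L := Nat.one_le_pow _ _ (by omega)
    have hle : #(univ : Finset C) * (Fintype.card C + 1) ^ L ≤ #(S.erase x) := by
      rw [Finset.card_univ, hcard]
      have e : (Fintype.card C + 1) ^ (L + 1) =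
          Fintype.card C * (Fintype.card C + 1) ^ L + (Fintype.card C + 1) ^ L := by ring
      omega
    obtain ⟨κ, -, hκ⟩ := Finset.exists_le_card_fiber_of_mul_le_card_of_maps_to
      (f := fun y => f x y) (s := S.erase x) (t := (univ : Finset C))
      (fun y _ => Finset.mem_univ _) Finset.univ_nonempty hle
    obtain ⟨a, col, ha, hm, hc⟩ := ih _ hκ
    have hm1 : ∀ i, a i ∈ S ∧ x < a i ∧ f x (a i) = κ := by
      intro i
      have h := hm i
      rw [Finset.mem_filter, Finset.mem_erase] at h
      exact ⟨h.1.2, lt_of_le_of_ne (S.min'_le _ h.1.2) (Ne.symm h.1.1), h.2⟩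
    refine ⟨Fin.cons x a, Fin.cons κ col, ?_, ?_, ?_⟩
    · intro i j hij
      induction i using Fin.cases with
      | zero =>
        induction j using Fin.cases with
        | zero => exact absurd hij (lt_irrefl _)
        | succ j => simpa using (hm1 j).2.1
      | succ i =>
        induction j using Fin.cases with
        | zero => exact absurd hij (by simp)
        | succ j => simpa using ha (by simpa using hij)
    · intro i
      induction i using Fin.cases with
      | zero => simpa using hxS
      | succ i => simpa using (hm1 i).1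
    · intro i j hij
      induction i using Fin.cases with
      | zero =>
        induction j using Fin.cases with
        | zero => exact absurd hij (lt_irrefl _)
        | succ j => simpa using (hm1 j).2.2
      | succ i =>
        induction j using Fin.cases with
        | zero => exact absurd hij (by simp)
        | succ j => simpa using hc i j (by simpa using hij)

theorem ram_general {α C : Type*} [LinearOrder α] [Fintype C] [Nonempty C]
    (f : α → α → C) (n : ℕ) (S : Finset α)
    (hS : (Fintype.card C + 1) ^ (Fintype.card C * n) ≤ #S) :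
    ∃ (g : Fin n → α) (κ : C), StrictMono g ∧ ∀ a b : Fin n, a < b → f (g a) (g b) = κ := by
  classical
  obtain ⟨a, col, ha, -, hc⟩ := ram_chain f (Fintype.card C * n) S hS
  obtain ⟨κ, -, hκ⟩ := Finset.exists_le_card_fiber_of_mul_le_card_of_maps_to
    (f := col) (s := (univ : Finset (Fin (Fintype.card C * n)))) (t := (univ : Finset C))
    (n := n) (fun y _ => Finset.mem_univ _) Finset.univ_nonempty (by simp)
  let e := Finset.orderEmbOfCardLe _ hκ
  have he : ∀ i, e i ∈ Finset.filter (fun x => col x = κ) univ := fun i =>
    Finset.orderEmbOfCardLe_mem _ hκ i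
  refine ⟨fun i => a (e i), κ, fun i j hij => ha (e.strictMono hij), ?_⟩
  intro i j hij
  rw [hc _ _ (e.strictMono hij)]
  exact (Finset.mem_filter.1 (he i)).2

theorem rma0 : RMA := by
  intro C _ n
  rcases isEmpty_or_nonempty C with hC | hC
  · exact ⟨1, fun f => (hC.false (f 0 0)).elim⟩
  · refine ⟨(Fintype.card C + 1) ^ (Fintype.card C * n), fun f => ?_⟩
    obtain ⟨g, κ, hg, h⟩ := ram_general f n univ (by simp)
    exact ⟨g, hg, fun a b a' b' hab hab' => by rw [h a b hab, h a' b' hab']⟩

theorem ram : RAM := fun c n => rma0 (Fin c) n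

theorem rma (_ : RAM) : RMA := rma0

end Pool.Agent.H49.HR
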